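import Pool.Agent.NH60.AutTriv

/-!
Over an algebraically closed field of characteristic `0`, for `N ≥ 2` and `d ≥ 2`, the singular
points of the moduli space `M_d^N` of degree `d` endomorphisms of `ℙ^N` are exactly the classes
of the endomorphisms with nontrivial automorphism group.
-/

namespace Pool.Agent.Results.MP_807a54_ag.SingularLocus

open Pool.Agent.Helper819.Dyn Pool.Agent.NH60 Pool.Agent.NH60.Sing

theorem result (k : Type) [Field k] [IsAlgClosed k] [CharZero k] (N d : ℕ) (hN : 2 ≤ N)
    (hd : 2 ≤ d) :
    (∀ x : Moduli k N d, IsLocalRing (localRing x) ∧ IsNoetherianRing (localRing x)) ∧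
      ∀ F : EndTuple k N d, cls F ∈ singularLocus k N d ↔ autGroup F ≠ ⊥ := by
  constructor
  · intro x
    obtain ⟨F, rfl⟩ := cls_surjective x
    have h1 := noeth hd (NZ_cfE F)
    exact ⟨(localEquiv hd F).isLocalRing, isNoetherianRing_of_ringEquiv _ (localEquiv hd F)⟩
  · intro F
    rw [autGroup_iff hd F]
    constructor
    · intro h ht
      apply h
      have h1 := regular hd (NZ_cfE F) ht
      exact IsRegularLocalRing.of_ringEquiv (localEquiv hd F)
    · intro h hreg
      have hreg' : IsRegularLocalRing (localRing (cls F)) := hreg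
      exact not_regular hN hd (NZ_cfE F) h
        (IsRegularLocalRing.of_ringEquiv (localEquiv hd F).symm)

end Pool.Agent.Results.MP_807a54_ag.SingularLocus
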